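import Mathlib

set_option autoImplicit false

namespace Pool.Agent.Results.MP_368cee_co.DegreeFour

/-- For every number `c` of colours there is a finite hypergraph of maximum degree at most 4
with no strong odd colouring with `c` colours. -/
theorem result : ∀ c : ℕ, ∃ (n : ℕ) (E : Finset (Finset (Fin n × Fin n))),
    (∀ v, (E.filter (fun e => v ∈ e)).card ≤ 4) ∧
    ¬ ∃ φ : Fin n × Fin n → Fin c, ∀ e ∈ E, ∀ i,
      (e.filter (fun v => φ v = i)).card = 0 ∨ Odd (e.filter (fun v => φ v = i)).card := by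
  intro c
  let n := 2 ^ c + 1
  let Q : Fin n → Finset (Fin n × Fin n) := fun j => Finset.univ.filter fun v => v.1 = j ∧ v.2 ≠ j
  let R : Fin n → Finset (Fin n × Fin n) := fun j => Finset.univ.filter fun v => v.2 = j ∧ v.1 ≠ j
  refine ⟨n, Finset.univ.image Q ∪ Finset.univ.image R ∪ Finset.univ.image (fun j => Q j ∪ R j),
    fun v => ?_, ?_⟩
  · refine le_trans (Finset.card_le_card (t := {Q v.1, R v.2, Q v.1 ∪ R v.1, Q v.2 ∪ R v.2}) ?_)
      Finset.card_le_four
    intro e he
    simp only [Finset.mem_filter, Finset.mem_union, Finset.mem_image, Finset.mem_univ, true_and] at he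
    obtain ⟨(⟨j, rfl⟩ | ⟨j, rfl⟩) | ⟨j, rfl⟩, h⟩ := he
    · simp only [Q, Finset.mem_filter] at h
      simp [h.2.1]
    · simp only [R, Finset.mem_filter] at h
      simp [h.2.1]
    · simp only [Q, R, Finset.mem_union, Finset.mem_filter] at h
      rcases h with h | h <;> simp [h.2.1]
  · rintro ⟨φ, h⟩
    have key : ∀ j i, (∃ v ∈ Q j, φ v = i) → (∃ v ∈ R j, φ v = i) → False := by
      rintro j i ⟨v, hv, e⟩ ⟨w, hw, e'⟩
      have h1 := h (Q j) (by simp) i
      have h2 := h (R j) (by simp) i
      have h3 := h (Q j ∪ R j) (by simp) i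
      have d : Disjoint ((Q j).filter fun v => φ v = i) ((R j).filter fun v => φ v = i) := by
        rw [Finset.disjoint_left]
        intro x a b
        simp only [Q, R, Finset.mem_filter] at a b
        exact a.1.2.2 b.1.2.1
      rw [Finset.filter_union, Finset.card_union_of_disjoint d] at h3
      have p1 : 0 < ((Q j).filter fun v => φ v = i).card :=
        Finset.card_pos.2 ⟨v, Finset.mem_filter.2 ⟨hv, e⟩⟩
      have p2 : 0 < ((R j).filter fun v => φ v = i).card :=
        Finset.card_pos.2 ⟨w, Finset.mem_filter.2 ⟨hw, e'⟩⟩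
      simp only [Nat.odd_iff] at h1 h2 h3
      omega
    obtain ⟨j, l, hne, e⟩ := Fintype.exists_ne_map_eq_of_card_lt (fun j => (Q j).image φ)
      (by simp [n])
    have m : φ (j, l) ∈ (Q l).image φ := e ▸ Finset.mem_image_of_mem φ (by simp [Q, hne.symm])
    exact key l (φ (j, l)) (by simpa using m) ⟨(j, l), by simp [R, hne], rfl⟩

end Pool.Agent.Results.MP_368cee_co.DegreeFour
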